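import Pool.Agent.H20.PG3

namespace Pool.Agent.Results.MP_89ce39_al.AllGroups

open Pool.Agent.H20.ProjG

universe u

theorem result (G : Type u) [Group G] :
    ∃ (S : Type u) (_ : Semigroup S) (σ : RegStar S) (e : σ.PG), e * e = e ∧
      ∃ f : G →ₙ* σ.PG, Function.Injective f ∧ Set.range f = {a | GreenH a e} :=
  ⟨El (DD G), inferInstance, (DD G).rs, (DD G).X Vx.c0, (DD G).XX _, main G⟩

end Pool.Agent.Results.MP_89ce39_al.AllGroups
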